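import Pool.Agent.GEN.StmtsR
import Pool.Agent.GEN.StmtsZ
import Pool.Agent.Helper73_Simp2.Zalg

/-!
# GEN, row KRY: points on the rays and separating weights
-/

set_option autoImplicit false

namespace Pool.Agent.GEN.H49

open Finset Pool.Agent.Helper6_Mono Pool.Agent.Helper30_Simp Pool.Agent.Helper30_Simp2
  Pool.Agent.GEN

variable {σ : Type} [Fintype σ] {M : Finset (σ →₀ ℕ)}

/-- nonzero points of flat cones -/
theorem nz (hM : M.Nonempty) {x : ℚ} {S : Finset (Wa M)} (hf : Flat M x S) {u : σ → ℕ} {N : ℕ}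
    (h : InK M S u N) (h0 : u ≠ 0 ∨ N ≠ 0) : u ≠ 0 ∧ N ≠ 0 := by
  obtain ⟨α, hα⟩ := hM
  have hu : u ≠ 0 := by
    rintro rfl
    have h1 := h.1 (Sum.inr ⟨α, hα⟩)
    simp only [slk, H73.dot_zero] at h1
    rcases h0 with h0 | h0
    · exact h0 rfl
    · omega
  refine ⟨hu, ?_⟩
  rintro rfl
  have h1 := hf u 0 h
  simp only [Nat.cast_zero, mul_zero] at h1
  have h2 : ∑ i, u i = 0 := by exact_mod_cast h1
  apply hu
  funext i
  exact (Finset.sum_eq_zero_iff.1 h2) i (Finset.mem_univ i)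

/-- proportional points have proportional slacks -/
theorem slk_prop {u u' : σ → ℕ} {N N' : ℕ} (h : ∀ i, (N' : ℤ) * u i = (N : ℤ) * u' i)
    (ρ : Wa M) : (N' : ℤ) * slk M u N ρ = (N : ℤ) * slk M u' N' ρ := by
  rcases ρ with i | α
  · exact h i
  · simp only [slk, dot]
    push_cast
    rw [mul_sub, mul_sub, Finset.mul_sum, Finset.mul_sum]
    have h1 : ∑ i, (N' : ℤ) * ((u i : ℤ) * ((α : σ →₀ ℕ) i : ℤ)) =
        ∑ i, (N : ℤ) * ((u' i : ℤ) * ((α : σ →₀ ℕ) i : ℤ)) := by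
      apply Finset.sum_congr rfl
      intro i _
      rw [← mul_assoc, h i, mul_assoc]
    rw [h1]
    ring

theorem kry (hGwa : GwaStmt) : KryStmt := by
  classical
  intro σ _ M hM hS1 x hK R hR
  -- the sets with a nonzero point
  let Has : Finset (Wa M) → Prop := fun R' => R ⊆ R' ∧ ∃ w : (σ → ℕ) × ℕ, InK M R' w.1 w.2 ∧
    (w.1 ≠ 0 ∨ w.2 ≠ 0)
  have hpt : ∀ R' : Finset (Wa M), ∃ w : (σ → ℕ) × ℕ, Has R' → InK M R' w.1 w.2 ∧
      (w.1 ≠ 0 ∨ w.2 ≠ 0) := by
    intro R'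
    by_cases h : Has R'
    · obtain ⟨_, w, hw⟩ := h
      exact ⟨w, fun _ => hw⟩
    · exact ⟨(0, 0), fun h' => absurd h' h⟩
  choose pt hpt using hpt
  let MX : Finset (Finset (Wa M)) := Finset.univ.filter
    (fun R' => Has R' ∧ ∀ R'', Has R'' → R' ⊆ R'' → R'' = R')
  have hMX : ∀ R', R' ∈ MX ↔ Has R' ∧ ∀ R'', Has R'' → R' ⊆ R'' → R'' = R' := by
    intro R'
    simp only [MX, Finset.mem_filter, Finset.mem_univ, true_and]
  have hmax : ∀ (n : ℕ) (R' : Finset (Wa M)), Fintype.card (Wa M) - R'.card = n → Has R' →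
      ∃ R'' ∈ MX, R' ⊆ R'' := by
    intro n
    induction n using Nat.strong_induction_on with
    | _ n ih =>
      intro R' hn hR'
      by_cases h : ∀ R'', Has R'' → R' ⊆ R'' → R'' = R'
      · exact ⟨R', (hMX R').2 ⟨hR', h⟩, Finset.Subset.refl _⟩
      · push Not at h
        obtain ⟨R'', h1, h2, h3⟩ := h
        have h4 : R'.card < R''.card := Finset.card_lt_card
          (Finset.ssubset_iff_subset_ne.2 ⟨h2, fun h => h3 h.symm⟩)
        have h5 : R''.card ≤ Fintype.card (Wa M) := Finset.card_le_univ _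
        obtain ⟨R3, h6, h7⟩ := ih (Fintype.card (Wa M) - R''.card) (by omega) R'' rfl h1
        exact ⟨R3, h6, h2.trans h7⟩
  let W : Finset ((σ → ℕ) × ℕ) := MX.image pt
  have hW : ∀ w, w ∈ W → ∃ R' ∈ MX, pt R' = w := by
    intro w hw
    exact Finset.mem_image.1 hw
  -- the points of `W`
  have hWp : ∀ w ∈ W, w.1 ≠ 0 ∧ w.2 ≠ 0 ∧ InK M R w.1 w.2 ∧ FlatPt M x w.1 w.2 := by
    intro w hw
    obtain ⟨R', hR', rfl⟩ := hW w hw
    have h1 := ((hMX R').1 hR').1
    have h2 := hpt R' h1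
    have h3 := nz hM (H73.flat_mono h1.1 hR) h2.1 h2.2
    exact ⟨h3.1, h3.2, H73.inK_mono h1.1 h2.1, h3.1, R', H73.flat_mono h1.1 hR, h2.1⟩
  have hKe : ∀ w : (σ → ℕ) × ℕ, ∃ K : Finset σ, FlatPt M x w.1 w.2 →
      (∀ j ∈ K, w.1 j ≠ 0) ∧ KS (fce M w.1) K := by
    intro w
    by_cases h : FlatPt M x w.1 w.2
    · obtain ⟨K, hK1⟩ := hK w.1 w.2 h
      exact ⟨K, fun _ => hK1⟩
    · exact ⟨∅, fun h' => absurd h' h⟩
  choose K hKK using hKe
  let Kc : Finset σ := W.biUnion K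
  have hKc : ∀ j, j ∈ Kc ↔ ∃ w ∈ W, j ∈ K w := fun j => Finset.mem_biUnion
  let V : (σ → ℕ) × ℕ → (σ → ℕ) × ℕ → σ → ℤ := fun w w' i =>
    (w'.2 : ℤ) * w.1 i - (w.2 : ℤ) * w'.1 i
  -- (1)
  have hV1 : ∀ w ∈ W, ∀ w' ∈ W, w ≠ w' → ∃ i, V w w' i ≠ 0 := by
    intro w hw w' hw' hne
    by_contra hcon
    push Not at hcon
    have hprop : ∀ i, (w'.2 : ℤ) * w.1 i = (w.2 : ℤ) * w'.1 i := fun i => sub_eq_zero.1 (hcon i)
    obtain ⟨R1, hR1, e1⟩ := hW w hw
    obtain ⟨R2, hR2, e2⟩ := hW w' hw'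
    have hH1 := (hMX R1).1 hR1
    have hH2 := (hMX R2).1 hR2
    have h1 := hpt R1 hH1.1
    have h2 := hpt R2 hH2.1
    rw [e1] at h1
    rw [e2] at h2
    have hw2 : (w.2 : ℤ) ≠ 0 := by exact_mod_cast (hWp w hw).2.1
    have hw2' : (w'.2 : ℤ) ≠ 0 := by exact_mod_cast (hWp w' hw').2.1
    have hU : Has (R1 ∪ R2) := by
      refine ⟨hH1.1.1.trans Finset.subset_union_left, w, ⟨h1.1.1, ?_⟩, h1.2⟩
      intro ρ hρ
      rcases Finset.mem_union.1 hρ with hρ | hρ
      · exact h1.1.2 ρ hρ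
      · have h3 := slk_prop (M := M) hprop ρ
        rw [h2.1.2 ρ hρ, mul_zero] at h3
        exact (mul_eq_zero.1 h3).resolve_left hw2'
    have h3 := hH1.2 _ hU Finset.subset_union_left
    have h4 := hH2.2 _ hU Finset.subset_union_right
    apply hne
    have h5 : R1 = R2 := h3.symm.trans h4
    rw [← e1, ← e2, h5]
  -- the face
  have hface : ∀ w ∈ W, ∀ α : M, (α : σ →₀ ℕ) ∈ fce M w.1 ↔ slk M w.1 w.2 (Sum.inr α) = 0 := by
    intro w hw α
    have h1 := hWp w hw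
    have h2 := H73.face_iff hR h1.2.2.1 h1.1 α
    rw [← h2]
    unfold fce
    rw [Finset.mem_filter]
    exact ⟨fun h => h.2, fun h => ⟨α.2, h⟩⟩
  -- the exponents of the monomials which are tight on the cone of `R`
  obtain ⟨u, N, hrel⟩ := H73.exists_rel (M := M) R
  have hmono : ∀ j ∈ Kc, ∃ α : M, (α : σ →₀ ℕ) j ≠ 0 ∧ slk M u N (Sum.inr α) = 0 := by
    intro j hj
    obtain ⟨w, hw, hjw⟩ := (hKc j).1 hj
    have h1 := hWp w hw
    have h2 := (hKK w h1.2.2.2).1 j hjw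
    have huj : u j ≠ 0 := by
      intro h0
      have h3 := hrel.2 (Sum.inl j) (by simp only [slk]; exact_mod_cast h0) w.1 w.2 h1.2.2.1
      simp only [slk] at h3
      exact h2 (by exact_mod_cast h3)
    by_contra hcon
    push Not at hcon
    have hin : InK M R (u + Pi.single j 1) N := by
      have hs : ∀ α : M, slk M (u + Pi.single j 1) N (Sum.inr α) =
          slk M u N (Sum.inr α) + ((α : σ →₀ ℕ) j : ℤ) := by
        intro α
        simp only [slk, H73.dot_add]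
        have h3 : dot (Pi.single j 1 : σ → ℕ) (α : σ →₀ ℕ) = (α : σ →₀ ℕ) j := by
          unfold dot
          rw [Finset.sum_eq_single j]
          · simp
          · intro b _ hb
            rw [Pi.single_eq_of_ne hb, zero_mul]
          · intro h
            exact absurd (Finset.mem_univ j) h
        rw [h3]
        push_cast
        ring
      refine ⟨?_, ?_⟩
      · intro ρ
        rcases ρ with i | α
        · simp only [slk]
          positivity
        · rw [hs]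
          have h3 := hrel.1.1 (Sum.inr α)
          positivity
      · intro ρ hρ
        rcases ρ with i | α
        · have h3 := hrel.1.2 _ hρ
          simp only [slk] at h3 ⊢
          have h4 : i ≠ j := by
            rintro rfl
            exact huj (by exact_mod_cast h3)
          rw [Pi.add_apply, Pi.single_eq_of_ne h4, add_zero]
          exact h3
        · rw [hs]
          have h3 := hrel.1.2 _ hρ
          have h4 : (α : σ →₀ ℕ) j = 0 := by
            by_contra h5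
            exact hcon α h5 h3
          rw [h3, h4]
          simp
    have h3 := hR _ _ hin
    have h4 := hR _ _ hrel.1
    rw [← h4] at h3
    have h5 : ∑ i, (u + Pi.single j 1 : σ → ℕ) i = ∑ i, u i := by exact_mod_cast h3
    simp only [Pi.add_apply, Finset.sum_add_distrib, Finset.sum_pi_single', Finset.mem_univ,
      if_true] at h5
    omega
  -- (2)
  have hV2 : ∀ w ∈ W, ∀ w' ∈ W, w ≠ w' → ∃ i, i ∉ Kc ∧ V w w' i ≠ 0 := by
    intro w hw w' hw' hne
    by_contra hcon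
    push Not at hcon
    obtain ⟨i0, hi0⟩ := hV1 w hw w' hw' hne
    have hi0K : i0 ∈ Kc := by
      by_contra h
      exact hi0 (hcon i0 h)
    obtain ⟨α, hα1, hα2⟩ := hmono i0 hi0K
    have htight : ∀ w₁ ∈ W, slk M w₁.1 w₁.2 (Sum.inr α) = 0 := fun w₁ hw₁ =>
      hrel.2 _ hα2 w₁.1 w₁.2 (hWp w₁ hw₁).2.2.1
    have hle : ∀ j ∈ Kc, (α : σ →₀ ℕ) j ≠ 0 → (α : σ →₀ ℕ) j = 1 := by
      intro j hj h0
      obtain ⟨w₁, hw₁, hj₁⟩ := (hKc j).1 hj
      have h1 := (hface w₁ hw₁ α).2 (htight w₁ hw₁)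
      have h2 := (hKK w₁ (hWp w₁ hw₁).2.2.2).2.1.2.1 α h1
      have h3 : (α : σ →₀ ℕ) j ≤ ∑ j ∈ K w₁, (α : σ →₀ ℕ) j :=
        Finset.single_le_sum (f := fun j => (α : σ →₀ ℕ) j) (fun _ _ => Nat.zero_le _) hj₁
      omega
    have hi1 : (α : σ →₀ ℕ) i0 = 1 := hle i0 hi0K hα1
    have hsum : ∑ i, V w w' i * ((α : σ →₀ ℕ) i : ℤ) = V w w' i0 := by
      rw [Finset.sum_eq_single i0]
      · rw [hi1]
        simp
      · intro j _ hj
        by_cases hjK : j ∈ Kc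
        · have h1 : (α : σ →₀ ℕ) j = 0 := by
            by_contra h0
            exact hj (hS1 α α.2 j i0 (hle j hjK h0) hi1)
          rw [h1]
          simp
        · rw [hcon j hjK, zero_mul]
      · intro h
        exact absurd (Finset.mem_univ i0) h
    have h1 := htight w hw
    have h2 := htight w' hw'
    simp only [slk, dot] at h1 h2
    push_cast at h1 h2
    have h3 : ∑ i, V w w' i * ((α : σ →₀ ℕ) i : ℤ) =
        (w'.2 : ℤ) * ∑ i, (w.1 i : ℤ) * ((α : σ →₀ ℕ) i : ℤ) -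
          (w.2 : ℤ) * ∑ i, (w'.1 i : ℤ) * ((α : σ →₀ ℕ) i : ℤ) := by
      rw [Finset.mul_sum, Finset.mul_sum, ← Finset.sum_sub_distrib]
      apply Finset.sum_congr rfl
      intro i _
      simp only [V]
      ring
    rw [sub_eq_zero.1 h1, sub_eq_zero.1 h2, hsum] at h3
    exact hi0 (by rw [h3]; ring)
  -- (3)
  obtain ⟨θ, hθ1, hθ2⟩ := hGwa σ Kc
    (((W ×ˢ W).filter (fun p => p.1 ≠ p.2)).image (fun p => V p.1 p.2)) (by
      intro ν hν
      obtain ⟨p, hp, rfl⟩ := Finset.mem_image.1 hν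
      rw [Finset.mem_filter, Finset.mem_product] at hp
      exact hV2 p.1 hp.1.1 p.2 hp.1.2 hp.2)
  refine ⟨W, K, θ, ?_, ?_, ?_⟩
  · intro w hw
    have h1 := hWp w hw
    have h2 := hKK w h1.2.2.2
    refine ⟨h1.2.1, h1.2.2.1, ?_, hface w hw, h2.2⟩
    intro j hj
    exact ⟨h2.1 j hj, (hθ1 j).2 ((hKc j).2 ⟨w, hw, hj⟩)⟩
  · intro R' hR' hex
    obtain ⟨u', N', h1, h2⟩ := hex
    obtain ⟨R'', h3, h4⟩ := hmax _ R' rfl ⟨hR', (u', N'), h1, h2⟩
    exact ⟨pt R'', Finset.mem_image_of_mem pt h3,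
      H73.inK_mono h4 (hpt R'' ((hMX R'').1 h3).1).1⟩
  · intro w hw w' hw' hne heq
    have h1 := hθ2 (V w w') (Finset.mem_image.2 ⟨(w, w'), by
      rw [Finset.mem_filter, Finset.mem_product]
      exact ⟨⟨hw, hw'⟩, hne⟩, rfl⟩)
    apply h1
    have h2 : ∑ i, (θ i : ℤ) * V w w' i =
        (w'.2 : ℤ) * ∑ i, (θ i : ℤ) * (w.1 i : ℤ) - (w.2 : ℤ) * ∑ i, (θ i : ℤ) * (w'.1 i : ℤ) := by
      rw [Finset.mul_sum, Finset.mul_sum, ← Finset.sum_sub_distrib]
      apply Finset.sum_congr rfl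
      intro i _
      simp only [V]
      ring
    have h3 : (∑ i, (θ i : ℤ) * (w.1 i : ℤ)) * (w'.2 : ℤ) =
        (∑ i, (θ i : ℤ) * (w'.1 i : ℤ)) * (w.2 : ℤ) := by exact_mod_cast heq
    rw [h2, mul_comm (w'.2 : ℤ), h3]
    ring

end Pool.Agent.GEN.H49
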