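import Pool.Agent.GEN.StmtsU

/-!
# Squad GEN, row LSY: from lists to symbols
-/

set_option autoImplicit false

namespace Pool.Agent.GEN.H49

open MvPolynomial Finset Pool.Agent.Helper6_Mono Pool.Agent.Helper30_Simp
  Pool.Agent.Helper30_Simp2 Pool.Agent.GEN

theorem lsy_word (h1 : SycStmt) {σ A : Type} [CommRing A] (v : List σ) :
    ∃ q : Sm σ A, ∀ (l : A) (w : MvPolynomial σ A), act l w q = dWordR v w := by
  induction v with
  | nil => exact ⟨1, fun l w => (h1 σ A l w 1).2.2.2.2.2⟩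
  | cons i v ih =>
    obtain ⟨q, hq⟩ := ih
    refine ⟨Lop (some (Sum.inr i)) q, fun l w => ?_⟩
    rw [(h1 σ A l w q).2.2.1 i, hq l w]
    rfl

theorem lsy_mul (h1 : SycStmt) {σ A : Type} [CommRing A] (g : MvPolynomial σ A) :
    ∀ q : Sm σ A, ∃ q' : Sm σ A, ∀ (l : A) (w : MvPolynomial σ A),
      act l w q' = g * act l w q := by
  induction g using MvPolynomial.induction_on with
  | C a =>
    intro q
    refine ⟨a • q, fun l w => ?_⟩
    rw [map_smul, MvPolynomial.smul_eq_C_mul]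
  | add p q hp hq =>
    intro r
    obtain ⟨r1, hr1⟩ := hp r
    obtain ⟨r2, hr2⟩ := hq r
    refine ⟨r1 + r2, fun l w => ?_⟩
    rw [map_add, hr1, hr2, add_mul]
  | mul_X p i hp =>
    intro r
    obtain ⟨r1, hr1⟩ := hp r
    refine ⟨Lop (some (Sum.inl i)) r1, fun l w => ?_⟩
    rw [(h1 σ A l w r1).2.1 i, hr1]
    ring

theorem lsy_pow (h1 : SycStmt) {σ A : Type} [CommRing A] (k : ℕ) :
    ∀ q : Sm σ A, ∃ q' : Sm σ A, ∀ (n : ℕ) (w : MvPolynomial σ A),
      act (n : A) w q' = (n : MvPolynomial σ A) ^ k * act (n : A) w q := by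
  induction k with
  | zero =>
    intro q
    exact ⟨q, fun n w => by rw [pow_zero, one_mul]⟩
  | succ k ih =>
    intro q
    obtain ⟨r, hr⟩ := ih q
    refine ⟨Lop none r, fun n w => ?_⟩
    rw [(h1 σ A (n : A) w r).1, hr n w, map_natCast, pow_succ]
    ring

theorem lsy_poly (h1 : SycStmt) {σ A : Type} [CommRing A]
    (a : Polynomial (MvPolynomial σ A)) :
    ∀ q : Sm σ A, ∃ q' : Sm σ A, ∀ (n : ℕ) (w : MvPolynomial σ A),
      act (n : A) w q' = a.eval (n : MvPolynomial σ A) * act (n : A) w q := by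
  induction a using Polynomial.induction_on' with
  | add p q hp hq =>
    intro r
    obtain ⟨r1, hr1⟩ := hp r
    obtain ⟨r2, hr2⟩ := hq r
    refine ⟨r1 + r2, fun n w => ?_⟩
    rw [map_add, hr1, hr2, Polynomial.eval_add, add_mul]
  | monomial k g =>
    intro q
    obtain ⟨r, hr⟩ := lsy_pow h1 k q
    obtain ⟨r', hr'⟩ := lsy_mul h1 g r
    refine ⟨r', fun n w => ?_⟩
    rw [hr', hr, Polynomial.eval_monomial, mul_assoc]

theorem lsy (h1 : SycStmt) : LsyStmt := by
  intro σ A _ P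
  induction P with
  | nil => exact ⟨0, fun n w => by rw [map_zero]; rfl⟩
  | cons av P ih =>
    obtain ⟨p, hp⟩ := ih
    obtain ⟨q, hq⟩ := lsy_word h1 (A := A) av.2
    obtain ⟨r, hr⟩ := lsy_poly h1 av.1 q
    refine ⟨r + p, fun n w => ?_⟩
    rw [map_add, hr, hq, hp]
    unfold opR
    rw [List.map_cons, List.sum_cons]

end Pool.Agent.GEN.H49
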