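import Pool.Agent.GEN.StmtsT

/-!
# Squad GEN, row NDT: independent coefficients after rescaling give smooth partial sums
-/

set_option autoImplicit false

namespace Pool.Agent.GEN.H49

open Finset Pool.Agent.Helper6_Mono Pool.Agent.Helper30_Simp Pool.Agent.Helper30_Simp2
  Pool.Agent.Helper8_CR Pool.Agent.GEN

theorem ndt_phi_monomial {σ : Type} (t : σ → ℂ) (Φ : MvPolynomial σ ℂ ≃ₐ[ℂ] MvPolynomial σ ℂ)
    (hΦ : ∀ i, Φ (MvPolynomial.X i) = MvPolynomial.C (t i) * MvPolynomial.X i)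
    (α : σ →₀ ℕ) (c : ℂ) :
    Φ (MvPolynomial.monomial α c)
      = MvPolynomial.monomial α ((α.prod fun i n => t i ^ n) * c) := by
  have hC : ∀ c : ℂ, Φ (MvPolynomial.C c) = MvPolynomial.C c := fun c => Φ.commutes c
  have h1 : MvPolynomial.monomial α c
      = MvPolynomial.C c * ∏ i ∈ α.support, (MvPolynomial.X i : MvPolynomial σ ℂ) ^ α i := by
    rw [MvPolynomial.monomial_eq]
    rfl
  have h2 : MvPolynomial.monomial α ((α.prod fun i n => t i ^ n) * c)
      = MvPolynomial.C ((∏ i ∈ α.support, t i ^ α i) * c)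
        * ∏ i ∈ α.support, (MvPolynomial.X i : MvPolynomial σ ℂ) ^ α i := by
    rw [MvPolynomial.monomial_eq]
    rfl
  rw [h1, h2, map_mul, hC, map_prod, map_mul, map_prod]
  have h3 : ∀ i ∈ α.support, Φ ((MvPolynomial.X i : MvPolynomial σ ℂ) ^ α i)
      = MvPolynomial.C (t i ^ α i) * MvPolynomial.X i ^ α i := by
    intro i _
    rw [map_pow, hΦ, mul_pow, map_pow]
  rw [Finset.prod_congr rfl h3, Finset.prod_mul_distrib]
  ring

theorem ndt_coeff {σ : Type} (t : σ → ℂ) (Φ : MvPolynomial σ ℂ ≃ₐ[ℂ] MvPolynomial σ ℂ)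
    (hΦ : ∀ i, Φ (MvPolynomial.X i) = MvPolynomial.C (t i) * MvPolynomial.X i)
    (p : MvPolynomial σ ℂ) (α : σ →₀ ℕ) :
    (Φ p).coeff α = (α.prod fun i n => t i ^ n) * p.coeff α := by
  classical
  induction p using MvPolynomial.induction_on' with
  | monomial β c =>
    rw [ndt_phi_monomial t Φ hΦ, MvPolynomial.coeff_monomial, MvPolynomial.coeff_monomial]
    by_cases h : β = α
    · rw [if_pos h, if_pos h, h]
    · rw [if_neg h, if_neg h, mul_zero]
  | add p q hp hq =>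
    rw [map_add, MvPolynomial.coeff_add, MvPolynomial.coeff_add, hp, hq, mul_add]

theorem ndt_part {σ : Type} (a : ℂ) (t : σ → ℂ) (Φ : MvPolynomial σ ℂ ≃ₐ[ℂ] MvPolynomial σ ℂ)
    (hΦ : ∀ i, Φ (MvPolynomial.X i) = MvPolynomial.C (t i) * MvPolynomial.X i)
    (p : MvPolynomial σ ℂ) (I : Finset (σ →₀ ℕ)) :
    part (MvPolynomial.C a * Φ p) I = MvPolynomial.C a * Φ (part p I) := by
  unfold part
  rw [map_sum, Finset.mul_sum]
  refine Finset.sum_congr rfl fun α _ => ?_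
  rw [ndt_phi_monomial t Φ hΦ, MvPolynomial.C_mul_monomial, MvPolynomial.coeff_C_mul,
    ndt_coeff t Φ hΦ]

theorem ndt_part_map {k : Type} [Field k] [Algebra k ℂ] {σ : Type} (G : MvPolynomial σ k)
    (I : Finset (σ →₀ ℕ)) :
    part (MvPolynomial.map (algebraMap k ℂ) G) I
      = MvPolynomial.map (algebraMap k ℂ) (part G I) := by
  unfold part
  rw [map_sum]
  refine Finset.sum_congr rfl fun α _ => ?_
  rw [MvPolynomial.map_monomial, MvPolynomial.coeff_map]

theorem ndt (h1 : SmoStmt) (h2 : SclStmt) (h3 : TsiStmt) (h4 : TsdStmt) : NdtStmt := by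
  intro k _ _ _ σ _ G hG I hI hne
  obtain ⟨a, t, Φ, ha, ht, hΦ, hsupp, hind⟩ := h2 k σ G hG
  have hs := h1 ℂ σ (MvPolynomial.C a * Φ (MvPolynomial.map (algebraMap k ℂ) G)) hind I
    (by rw [hsupp]; exact hI) hne
  rw [ndt_part a t Φ hΦ, ndt_part_map] at hs
  exact h4 k ℂ σ (part G I) (h3 σ a t Φ ha ht hΦ _ hs)

end Pool.Agent.GEN.H49
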